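import Pool.Agent.Work.MP_07f1b5_pr.Defs

namespace Pool.Agent.Work.MP_07f1b5_pr

open Finset

variable {ι : Type} [Fintype ι] [DecidableEq ι]

/-- Product weight of a configuration. -/
noncomputable def wt (p : ι → ℝ) (ω : Finset ι) : ℝ := ∏ e, if e ∈ ω then p e else 1 - p e

/-- Expectation under the product measure. -/
noncomputable def Ex (p : ι → ℝ) (f : Finset ι → ℝ) : ℝ := ∑ ω, wt p ω * f ω

/-- Admissible parameters. -/
def Adm (p : ι → ℝ) : Prop := ∀ e, 0 ≤ p e ∧ p e ≤ 1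

omit [Fintype ι] in
lemma Adm.update {p : ι → ℝ} (hp : Adm p) (e : ι) {t : ℝ} (h0 : 0 ≤ t) (h1 : t ≤ 1) :
    Adm (Function.update p e t) := by
  intro e'
  by_cases h : e' = e
  · subst h; simp [h0, h1]
  · simp [Function.update_of_ne h, hp e']

lemma wt_nonneg {p : ι → ℝ} (hp : Adm p) (ω : Finset ι) : 0 ≤ wt p ω := by
  unfold wt
  refine Finset.prod_nonneg fun e _ => ?_
  split_ifs
  · exact (hp e).1
  · linarith [(hp e).2]

lemma sum_wt (p : ι → ℝ) : ∑ ω, wt p ω = 1 := by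
  have h := Finset.prod_add (fun e => p e) (fun e => 1 - p e) (Finset.univ : Finset ι)
  simp only [add_sub_cancel, Finset.prod_const_one, Finset.powerset_univ] at h
  rw [h]
  refine Finset.sum_congr rfl fun ω _ => ?_
  unfold wt
  rw [Finset.prod_ite]
  congr 1
  · congr 1; ext; simp
  · congr 1; ext; simp

lemma mem_of_wt_ne {p : ι → ℝ} {ω : Finset ι} (h : wt p ω ≠ 0) {e : ι} (he : p e = 1) :
    e ∈ ω := by
  by_contra hne
  apply h
  unfold wt
  exact Finset.prod_eq_zero (Finset.mem_univ e) (by simp [hne, he])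

lemma ne_zero_of_wt_ne {p : ι → ℝ} {ω : Finset ι} (h : wt p ω ≠ 0) {e : ι} (he : e ∈ ω) :
    p e ≠ 0 := by
  intro h0
  apply h
  unfold wt
  exact Finset.prod_eq_zero (Finset.mem_univ e) (by simp [he, h0])

lemma Ex_mono_ae {p : ι → ℝ} (hp : Adm p) {f g : Finset ι → ℝ}
    (h : ∀ ω, wt p ω ≠ 0 → f ω ≤ g ω) : Ex p f ≤ Ex p g := by
  unfold Ex
  refine Finset.sum_le_sum fun ω _ => ?_
  by_cases h0 : wt p ω = 0
  · simp [h0]
  · exact mul_le_mul_of_nonneg_left (h ω h0) (wt_nonneg hp ω)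

lemma Ex_congr_ae {p : ι → ℝ} {f g : Finset ι → ℝ}
    (h : ∀ ω, wt p ω ≠ 0 → f ω = g ω) : Ex p f = Ex p g := by
  unfold Ex
  refine Finset.sum_congr rfl fun ω _ => ?_
  by_cases h0 : wt p ω = 0
  · simp [h0]
  · rw [h ω h0]

lemma Ex_add (p : ι → ℝ) (f g : Finset ι → ℝ) :
    Ex p (fun ω => f ω + g ω) = Ex p f + Ex p g := by
  unfold Ex; simp [mul_add, Finset.sum_add_distrib]

lemma Ex_sub (p : ι → ℝ) (f g : Finset ι → ℝ) :
    Ex p (fun ω => f ω - g ω) = Ex p f - Ex p g := by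
  unfold Ex; simp [mul_sub, Finset.sum_sub_distrib]

lemma Ex_const (p : ι → ℝ) (c : ℝ) : Ex p (fun _ => c) = c := by
  unfold Ex; rw [← Finset.sum_mul, sum_wt, one_mul]

lemma Ex_const_mul (p : ι → ℝ) (c : ℝ) (f : Finset ι → ℝ) :
    Ex p (fun ω => c * f ω) = c * Ex p f := by
  unfold Ex; rw [Finset.mul_sum]; exact Finset.sum_congr rfl fun _ _ => by ring

lemma Ex_mul_const (p : ι → ℝ) (c : ℝ) (f : Finset ι → ℝ) :
    Ex p (fun ω => f ω * c) = Ex p f * c := by
  unfold Ex; rw [Finset.sum_mul]; exact Finset.sum_congr rfl fun _ _ => by ring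

lemma Ex_sum {κ : Type} (p : ι → ℝ) (s : Finset κ) (f : κ → Finset ι → ℝ) :
    Ex p (fun ω => ∑ k ∈ s, f k ω) = ∑ k ∈ s, Ex p (f k) := by
  unfold Ex; rw [Finset.sum_comm]; exact Finset.sum_congr rfl fun _ _ => by rw [Finset.mul_sum]

lemma Ex_nonneg {p : ι → ℝ} (hp : Adm p) {f : Finset ι → ℝ} (h : ∀ ω, 0 ≤ f ω) : 0 ≤ Ex p f := by
  unfold Ex
  exact Finset.sum_nonneg fun ω _ => mul_nonneg (wt_nonneg hp ω) (h ω)

lemma wt_eq (p : ι → ℝ) (e : ι) (ω : Finset ι) :
    wt p ω = (if e ∈ ω then p e else 1 - p e) *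
      ∏ e' ∈ Finset.univ.erase e, if e' ∈ ω then p e' else 1 - p e' := by
  unfold wt
  rw [← Finset.mul_prod_erase _ _ (Finset.mem_univ e)]

lemma wt_update (p : ι → ℝ) (e : ι) (t : ℝ) (ω : Finset ι) :
    wt (Function.update p e t) ω = (if e ∈ ω then t else 1 - t) *
      ∏ e' ∈ Finset.univ.erase e, if e' ∈ ω then p e' else 1 - p e' := by
  rw [wt_eq _ e]
  congr 1
  · simp
  · refine Finset.prod_congr rfl fun e' he' => ?_
    rw [Function.update_of_ne (Finset.ne_of_mem_erase he')]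

/-- Conditioning on one coordinate. -/
lemma Ex_affine (p : ι → ℝ) (e : ι) (f : Finset ι → ℝ) :
    Ex p f = (1 - p e) * Ex (Function.update p e 0) f + p e * Ex (Function.update p e 1) f := by
  unfold Ex
  rw [Finset.mul_sum, Finset.mul_sum, ← Finset.sum_add_distrib]
  refine Finset.sum_congr rfl fun ω _ => ?_
  rw [wt_update, wt_update, wt_eq p e]
  split_ifs <;> ring

lemma Ex_update_one (p : ι → ℝ) (e : ι) (f : Finset ι → ℝ) :
    Ex (Function.update p e 1) f = Ex (Function.update p e 0) (fun ω => f (insert e ω)) := by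
  unfold Ex
  have hinv : Function.Involutive (fun ω : Finset ι => symmDiff ω {e}) := fun ω => by simp
  rw [← Equiv.sum_comp hinv.toPerm]
  refine Finset.sum_congr rfl fun ω _ => ?_
  simp only [Function.Involutive.coe_toPerm]
  rw [wt_update, wt_update]
  have hprod : (∏ e' ∈ Finset.univ.erase e, if e' ∈ symmDiff ω {e} then p e' else 1 - p e') =
      ∏ e' ∈ Finset.univ.erase e, if e' ∈ ω then p e' else 1 - p e' := by
    refine Finset.prod_congr rfl fun e' he' => ?_
    have := Finset.ne_of_mem_erase he'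
    simp [Finset.mem_symmDiff, this]
  rw [hprod]
  by_cases he : e ∈ ω
  · simp [Finset.mem_symmDiff, he]
  · have : symmDiff ω {e} = insert e ω := by
      ext x
      by_cases hx : x = e
      · subst hx; simp [Finset.mem_symmDiff, he]
      · simp [Finset.mem_symmDiff, hx]
    simp [this, he]

lemma Ex_split (p : ι → ℝ) (e : ι) (f : Finset ι → ℝ) :
    Ex p f = (1 - p e) * Ex (Function.update p e 0) f +
      p e * Ex (Function.update p e 0) (fun ω => f (insert e ω)) := by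
  rw [Ex_affine p e f, Ex_update_one]

lemma wt_inf_sup (p : ι → ℝ) (a b : Finset ι) : wt p a * wt p b = wt p (a ⊓ b) * wt p (a ⊔ b) := by
  unfold wt
  rw [← Finset.prod_mul_distrib, ← Finset.prod_mul_distrib]
  refine Finset.prod_congr rfl fun e _ => ?_
  by_cases ha : e ∈ a <;> by_cases hb : e ∈ b <;> simp [ha, hb, mul_comm]

/-- Harris inequality, increasing functions. -/
lemma harris {p : ι → ℝ} (hp : Adm p) {f g : Finset ι → ℝ} (hf0 : ∀ ω, 0 ≤ f ω)
    (hg0 : ∀ ω, 0 ≤ g ω) (hf : Monotone f) (hg : Monotone g) :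
    Ex p f * Ex p g ≤ Ex p (fun ω => f ω * g ω) := by
  have := fkg f g (wt p) (wt_nonneg hp) hf0 hg0 hf hg (fun a b => (wt_inf_sup p a b).le)
  rw [sum_wt, one_mul] at this
  exact this

/-- Harris inequality, an increasing and a decreasing function. -/
lemma harris_anti {p : ι → ℝ} (hp : Adm p) {f g : Finset ι → ℝ} (hf0 : ∀ ω, 0 ≤ f ω)
    (hg1 : ∀ ω, g ω ≤ 1) (hf : Monotone f) (hg : Antitone g) :
    Ex p (fun ω => f ω * g ω) ≤ Ex p f * Ex p g := by
  have h := harris hp (g := fun ω => 1 - g ω) hf0 (fun ω => by linarith [hg1 ω]) hf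
    (fun a b hab => by have := hg hab; simp only; linarith)
  have h1 : Ex p (fun ω => f ω * (1 - g ω)) = Ex p f - Ex p (fun ω => f ω * g ω) := by
    rw [← Ex_sub]; congr 1; ext ω; ring
  rw [h1, Ex_sub, Ex_const] at h
  nlinarith

/-- Harris inequality, two decreasing functions. -/
lemma harris_anti_anti {p : ι → ℝ} (hp : Adm p) {f g : Finset ι → ℝ} (hf1 : ∀ ω, f ω ≤ 1)
    (hg1 : ∀ ω, g ω ≤ 1) (hf : Antitone f) (hg : Antitone g) :
    Ex p f * Ex p g ≤ Ex p (fun ω => f ω * g ω) := by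
  have h := harris_anti hp (f := fun ω => 1 - f ω) (fun ω => by linarith [hf1 ω]) hg1
    (fun a b hab => by have := hf hab; simp only; linarith) hg
  have h1 : Ex p (fun ω => (1 - f ω) * g ω) = Ex p g - Ex p (fun ω => f ω * g ω) := by
    rw [← Ex_sub]; congr 1; ext ω; ring
  rw [h1, Ex_sub, Ex_const] at h
  nlinarith

/-- Independence of functions of disjoint sets of coordinates. -/
lemma Ex_indep (p : ι → ℝ) (F : Finset ι) (φ ψ : Finset ι → ℝ)
    (hφ : ∀ ω ω', ω ∩ F = ω' ∩ F → φ ω = φ ω') (hψ : ∀ ω ω', ω \ F = ω' \ F → ψ ω = ψ ω') :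
    Ex p (fun ω => φ ω * ψ ω) = Ex p φ * Ex p ψ := by
  let sw : Finset ι × Finset ι → Finset ι × Finset ι :=
    fun x => ((x.1 ∩ F) ∪ (x.2 \ F), (x.2 ∩ F) ∪ (x.1 \ F))
  have hinv : Function.Involutive sw := by
    rintro ⟨a, b⟩
    simp only [sw, Prod.mk.injEq]
    constructor <;> (ext x; by_cases hx : x ∈ F <;> simp [hx])
  have hw : ∀ x : Finset ι × Finset ι, wt p (sw x).1 * wt p (sw x).2 = wt p x.1 * wt p x.2 := by
    rintro ⟨a, b⟩
    unfold wt
    rw [← Finset.prod_mul_distrib, ← Finset.prod_mul_distrib]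
    refine Finset.prod_congr rfl fun e _ => ?_
    by_cases hx : e ∈ F <;> by_cases ha : e ∈ a <;> by_cases hb : e ∈ b <;>
      simp [sw, hx, ha, hb, mul_comm]
  have h1 : Ex p φ * Ex p ψ = ∑ x : Finset ι × Finset ι, wt p x.1 * wt p x.2 * (φ x.1 * ψ x.2) := by
    unfold Ex
    rw [Finset.sum_mul_sum, Fintype.sum_prod_type]
    exact Finset.sum_congr rfl fun _ _ => Finset.sum_congr rfl fun _ _ => by ring
  have h2 : Ex p (fun ω => φ ω * ψ ω) =
      ∑ x : Finset ι × Finset ι, wt p x.1 * wt p x.2 * (φ x.1 * ψ x.1) := by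
    unfold Ex
    rw [Fintype.sum_prod_type]
    refine Finset.sum_congr rfl fun a _ => ?_
    have : ∀ b, wt p a * wt p b * (φ a * ψ a) = wt p b * (wt p a * (φ a * ψ a)) := fun b => by ring
    simp only [this]
    rw [← Finset.sum_mul, sum_wt, one_mul]
  rw [h1, h2, ← Equiv.sum_comp hinv.toPerm]
  refine Finset.sum_congr rfl fun x _ => ?_
  simp only [Function.Involutive.coe_toPerm]
  rw [hw]
  congr 2
  · apply hφ; ext y; by_cases hx : y ∈ F <;> simp [sw, hx]
  · apply hψ; ext y; by_cases hx : y ∈ F <;> simp [sw, hx]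

end Pool.Agent.Work.MP_07f1b5_pr
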