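import Mathlib

namespace Pool.Agent.Work.MP_07f1b5_pr

open Classical in
/-- Bernoulli bond percolation on a finite graph `G` with edge probabilities `p`: the probability
that the random set `ω` of open edges (each edge `e` of `G` is open with probability `p e`,
independently) satisfies `A`. -/
noncomputable def percProb {V : Type} [Fintype V] [DecidableEq V] (G : SimpleGraph V)
    [DecidableRel G.Adj] (p : Sym2 V → ℝ) (A : Finset (Sym2 V) → Prop) : ℝ :=
  ∑ ω ∈ G.edgeFinset.powerset with A ω, (∏ e ∈ ω, p e) * ∏ e ∈ G.edgeFinset \ ω, (1 - p e)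

/-- `u` and `v` lie in one cluster: some path of edges from the set `ω` of open edges joins them. -/
def Conn {V : Type} (ω : Finset (Sym2 V)) (u v : V) : Prop :=
  (SimpleGraph.fromEdgeSet (ω : Set (Sym2 V))).Reachable u v

end Pool.Agent.Work.MP_07f1b5_pr
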