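import Pool.Agent.Work.MP_07f1b5_pr.Basic

-- merged part: Pool.Agent.Work.MP_07f1b5_pr.BHK
section
namespace Pool.Agent.Work.MP_07f1b5_pr

open Finset

section conn

variable {V : Type}

lemma Conn.rfl' (ω : Finset (Sym2 V)) (u : V) : Conn ω u u := SimpleGraph.Reachable.refl _

lemma Conn.symm' {ω : Finset (Sym2 V)} {u v : V} (h : Conn ω u v) : Conn ω v u :=
  SimpleGraph.Reachable.symm h

lemma Conn.trans' {ω : Finset (Sym2 V)} {u v w : V} (h : Conn ω u v) (h' : Conn ω v w) :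
    Conn ω u w := SimpleGraph.Reachable.trans h h'

lemma Conn.mono' {ω ω' : Finset (Sym2 V)} (hω : ω ⊆ ω') {u v : V} (h : Conn ω u v) :
    Conn ω' u v :=
  SimpleGraph.Reachable.mono (SimpleGraph.fromEdgeSet_mono (by exact_mod_cast hω)) h

lemma Conn.edge {ω : Finset (Sym2 V)} {u v : V} (h : s(u, v) ∈ ω) : Conn ω u v := by
  by_cases huv : u = v
  · subst huv; exact Conn.rfl' _ _
  · apply SimpleGraph.Adj.reachable
    rw [SimpleGraph.fromEdgeSet_adj]
    exact ⟨by exact_mod_cast h, huv⟩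

lemma Conn.ind {ω : Finset (Sym2 V)} {u v : V} (h : Conn ω u v) (P : V → Prop) (hu : P u)
    (hstep : ∀ x y, s(x, y) ∈ ω → P x → P y) : P v := by
  unfold Conn at h
  rw [SimpleGraph.reachable_iff_reflTransGen] at h
  induction h with
  | refl => exact hu
  | tail _ hxy ih =>
    rw [SimpleGraph.fromEdgeSet_adj] at hxy
    exact hstep _ _ (by exact_mod_cast hxy.1) ih

lemma conn_insert [DecidableEq V] (ω : Finset (Sym2 V)) (u v x y : V) :
    Conn (insert s(u, v) ω) x y ↔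
      Conn ω x y ∨ (Conn ω x u ∧ Conn ω v y) ∨ (Conn ω x v ∧ Conn ω u y) := by
  constructor
  · intro h
    refine h.ind (fun y => Conn ω x y ∨ (Conn ω x u ∧ Conn ω v y) ∨ (Conn ω x v ∧ Conn ω u y))
      (Or.inl (Conn.rfl' _ _)) ?_
    intro y z hyz hy
    rcases Finset.mem_insert.1 hyz with h | h
    · rcases Sym2.eq_iff.1 h with ⟨rfl, rfl⟩ | ⟨rfl, rfl⟩
      · rcases hy with h | h | h
        · exact Or.inr (Or.inl ⟨h, Conn.rfl' _ _⟩)
        · exact Or.inr (Or.inl ⟨h.1, Conn.rfl' _ _⟩)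
        · exact Or.inl h.1
      · rcases hy with h | h | h
        · exact Or.inr (Or.inr ⟨h, Conn.rfl' _ _⟩)
        · exact Or.inl h.1
        · exact Or.inr (Or.inr ⟨h.1, Conn.rfl' _ _⟩)
    · have e := Conn.edge h
      rcases hy with h | h | h
      · exact Or.inl (h.trans' e)
      · exact Or.inr (Or.inl ⟨h.1, h.2.trans' e⟩)
      · exact Or.inr (Or.inr ⟨h.1, h.2.trans' e⟩)
  · have hs : ω ⊆ insert s(u, v) ω := Finset.subset_insert _ _
    have e : Conn (insert s(u, v) ω) u v := Conn.edge (Finset.mem_insert_self _ _)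
    rintro (h | h | h)
    · exact h.mono' hs
    · exact ((h.1.mono' hs).trans' e).trans' (h.2.mono' hs)
    · exact ((h.1.mono' hs).trans' e.symm').trans' (h.2.mono' hs)

end conn

open Classical in
/-- Indicator of a proposition. -/
noncomputable def ind (P : Prop) : ℝ := if P then 1 else 0

lemma ind_pos {P : Prop} (h : P) : ind P = 1 := by simp [ind, h]
lemma ind_neg {P : Prop} (h : ¬ P) : ind P = 0 := by simp [ind, h]
lemma ind_nonneg (P : Prop) : 0 ≤ ind P := by unfold ind; split_ifs <;> norm_num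
lemma ind_le_one (P : Prop) : ind P ≤ 1 := by unfold ind; split_ifs <;> norm_num
lemma ind_mono {P Q : Prop} (h : P → Q) : ind P ≤ ind Q := by
  by_cases hP : P
  · rw [ind_pos hP, ind_pos (h hP)]
  · rw [ind_neg hP]; exact ind_nonneg _
lemma ind_congr {P Q : Prop} (h : P ↔ Q) : ind P = ind Q := by rw [propext h]
lemma ind_and (P Q : Prop) : ind (P ∧ Q) = ind P * ind Q := by
  by_cases hP : P <;> by_cases hQ : Q <;> simp [ind, hP, hQ]

variable {V : Type} [Fintype V] [DecidableEq V]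

open Classical in
/-- The cluster of `s`. -/
noncomputable def cl (ω : Finset (Sym2 V)) (s : V) : Finset V := Finset.univ.filter (Conn ω s)

omit [DecidableEq V] in
lemma mem_cl {ω : Finset (Sym2 V)} {s v : V} : v ∈ cl ω s ↔ Conn ω s v := by simp [cl]

omit [DecidableEq V] in
lemma cl_mono (s : V) : Monotone (fun ω : Finset (Sym2 V) => cl ω s) := by
  intro a b hab v hv
  exact mem_cl.2 ((mem_cl.1 hv).mono' hab)

/-- `s` is not joined to `X`. -/
def R (ω : Finset (Sym2 V)) (s : V) (X : Set V) : Prop := ∀ x ∈ X, ¬ Conn ω s x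

/-- The functions in the van den Berg, Haggstrom, Kahn inequality. -/
noncomputable def FF (s : V) (h : Finset V → ℝ) (X : Set V) (ω : Finset (Sym2 V)) : ℝ :=
  h (cl ω s) * ind (R ω s X)

lemma FF_insert (s : V) (h : Finset V → ℝ) {X : Set V} {z : V} (hz : z ∈ X) (u : V)
    (ω : Finset (Sym2 V)) : FF s h X (insert s(z, u) ω) = FF s h (insert u X) ω := by
  unfold FF
  by_cases hR : R ω s (insert u X)
  · have hz' : ¬ Conn ω s z := hR z (Set.mem_insert_of_mem _ hz)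
    have hu' : ¬ Conn ω s u := hR u (Set.mem_insert _ _)
    have hc : ∀ y, Conn (insert s(z, u) ω) s y ↔ Conn ω s y := by
      intro y; rw [conn_insert]; tauto
    have h1 : cl (insert s(z, u) ω) s = cl ω s := by
      ext y; rw [mem_cl, mem_cl, hc]
    have h2 : R (insert s(z, u) ω) s X := fun x hx hcx =>
      hR x (Set.mem_insert_of_mem _ hx) ((hc x).1 hcx)
    rw [h1, ind_pos hR, ind_pos h2]
  · have h2 : ¬ R (insert s(z, u) ω) s X := by
      intro h2
      apply hR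
      intro x hx hcx
      rcases hx with rfl | hx
      · exact h2 z hz ((conn_insert ω z x s z).2 (Or.inr (Or.inr ⟨hcx, Conn.rfl' _ _⟩)))
      · exact h2 x hx (hcx.mono' (Finset.subset_insert _ _))
    rw [ind_neg hR, ind_neg h2, mul_zero, mul_zero]

omit [DecidableEq V] in
lemma FF_nonneg (s : V) {h : Finset V → ℝ} (h0 : ∀ S, 0 ≤ h S) (X : Set V)
    (ω : Finset (Sym2 V)) : 0 ≤ FF s h X ω := mul_nonneg (h0 _) (ind_nonneg _)

omit [DecidableEq V] in
lemma FF_anti (s : V) {h : Finset V → ℝ} (h0 : ∀ S, 0 ≤ h S) {X Y : Set V} (hXY : X ⊆ Y)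
    (ω : Finset (Sym2 V)) : FF s h Y ω ≤ FF s h X ω :=
  mul_le_mul_of_nonneg_left (ind_mono fun hR x hx => hR x (hXY hx)) (h0 _)

lemma two_point {a0 a1 b0 b1 c0 c1 d0 d1 t : ℝ} (_ha0 : 0 ≤ a0) (ha1 : 0 ≤ a1) (_hb0 : 0 ≤ b0)
    (hb1 : 0 ≤ b1) (hc0 : 0 ≤ c0) (hc1 : 0 ≤ c1) (hd0 : 0 ≤ d0) (hd1 : 0 ≤ d1)
    (h00 : a0 * b0 ≤ c0 * d0) (h11 : a1 * b1 ≤ c1 * d1) (h01 : a0 * b1 ≤ c0 * d1)
    (h10 : a1 * b0 ≤ c0 * d1) (ht0 : 0 ≤ t) (ht1 : t ≤ 1) :
    ((1 - t) * a0 + t * a1) * ((1 - t) * b0 + t * b1) ≤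
      ((1 - t) * c0 + t * c1) * ((1 - t) * d0 + t * d1) := by
  have key : a0 * b1 + a1 * b0 ≤ c0 * d1 + c1 * d0 := by
    have huv : (a0 * b1) * (a1 * b0) ≤ (c0 * d1) * (c1 * d0) := by
      have := mul_le_mul h00 h11 (mul_nonneg ha1 hb1) (mul_nonneg hc0 hd0)
      nlinarith
    have hw : 0 ≤ c0 * d1 := mul_nonneg hc0 hd1
    rcases hw.eq_or_lt with hw | hw
    · have := mul_nonneg hc1 hd0
      linarith
    · have h1 := mul_nonneg (sub_nonneg.2 h01) (sub_nonneg.2 h10)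
      have h2 : (c0 * d1) * (a0 * b1 + a1 * b0) ≤ (c0 * d1) * (c0 * d1 + c1 * d0) := by nlinarith
      exact le_of_mul_le_mul_left h2 hw
  have h1 : 0 ≤ 1 - t := by linarith
  have e1 := mul_le_mul_of_nonneg_left h00 (mul_nonneg h1 h1)
  have e2 := mul_le_mul_of_nonneg_left h11 (mul_nonneg ht0 ht0)
  have e3 := mul_le_mul_of_nonneg_left key (mul_nonneg ht0 h1)
  nlinarith

/-- The van den Berg, Haggstrom, Kahn inequality. -/
theorem bhk (s : V) {f g : Finset V → ℝ} (hf0 : ∀ S, 0 ≤ f S) (hg0 : ∀ S, 0 ≤ g S)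
    (hf : Monotone f) (hg : Monotone g) (n : ℕ) :
    ∀ p : Sym2 V → ℝ, Adm p → (Finset.univ.filter (fun e => p e ≠ 0)).card = n →
      ∀ X Y : Set V, Ex p (FF s f X) * Ex p (FF s g Y) ≤
        Ex p (FF s (fun S => f S * g S) (X ∩ Y)) * Ex p (FF s (fun _ => 1) (X ∪ Y)) := by
  have hfg0 : ∀ S, 0 ≤ f S * g S := fun S => mul_nonneg (hf0 S) (hg0 S)
  have h10 : ∀ S : Finset V, (0 : ℝ) ≤ 1 := fun _ => zero_le_one
  induction n using Nat.strong_induction_on with
  | _ n ih =>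
  intro p hp hn X Y
  by_cases hz : ∃ z ∈ X ∩ Y, ∃ u, p s(z, u) ≠ 0
  · obtain ⟨z, hz, u, hu⟩ := hz
    set e := s(z, u) with he
    set q := Function.update p e 0 with hq
    have hqa : Adm q := hp.update e le_rfl zero_le_one
    have hcard : (Finset.univ.filter (fun e' => q e' ≠ 0)).card < n := by
      rw [← hn]
      apply Finset.card_lt_card
      refine ⟨fun e' he' => ?_, fun hsub => ?_⟩
      · simp only [Finset.mem_filter, Finset.mem_univ, true_and] at he' ⊢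
        by_cases h : e' = e
        · rw [h]; exact hu
        · rwa [hq, Function.update_of_ne h] at he'
      · have := hsub (Finset.mem_filter.2 ⟨Finset.mem_univ e, hu⟩)
        simp [hq] at this
    have IH := ih _ hcard q hqa rfl
    have hsplit : ∀ (h : Finset V → ℝ) (Z : Set V), z ∈ Z →
        Ex p (FF s h Z) = (1 - p e) * Ex q (FF s h Z) + p e * Ex q (FF s h (insert u Z)) := by
      intro h Z hZ
      rw [Ex_split p e]
      congr 3
      ext ω
      exact FF_insert s h hZ u ω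
    rw [hsplit f X hz.1, hsplit g Y hz.2, hsplit _ (X ∩ Y) hz, hsplit _ (X ∪ Y) (Or.inl hz.1)]
    have nn : ∀ {h : Finset V → ℝ} (_ : ∀ S, 0 ≤ h S) (Z : Set V), 0 ≤ Ex q (FF s h Z) :=
      fun h0 Z => Ex_nonneg hqa (FF_nonneg s h0 Z)
    refine two_point (nn hf0 _) (nn hf0 _) (nn hg0 _) (nn hg0 _) (nn hfg0 _) (nn hfg0 _)
      (nn h10 _) (nn h10 _) (IH X Y) ?_ ?_ ?_ (hp e).1 (hp e).2
    · have := IH (insert u X) (insert u Y)
      rwa [← Set.insert_inter_distrib, ← Set.insert_union_distrib] at this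
    · have := IH X (insert u Y)
      rw [Set.union_insert] at this
      refine this.trans (mul_le_mul_of_nonneg_right ?_ (nn h10 _))
      exact Ex_mono_ae hqa fun ω _ => FF_anti s hfg0
        (Set.inter_subset_inter_right _ (Set.subset_insert _ _)) ω
    · have := IH (insert u X) Y
      rw [Set.insert_union] at this
      refine this.trans (mul_le_mul_of_nonneg_right ?_ (nn h10 _))
      exact Ex_mono_ae hqa fun ω _ => FF_anti s hfg0
        (Set.inter_subset_inter_left _ (Set.subset_insert _ _)) ω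
  · push Not at hz
    by_cases hs : s ∈ X ∩ Y
    · have : Ex p (FF s f X) = 0 := by
        rw [← Ex_const p 0]
        refine Ex_congr_ae fun ω _ => ?_
        unfold FF
        rw [ind_neg (fun hR => hR s hs.1 (Conn.rfl' _ _)), mul_zero]
      rw [this, zero_mul]
      exact mul_nonneg (Ex_nonneg hp (FF_nonneg s hfg0 _)) (Ex_nonneg hp (FF_nonneg s h10 _))
    · have hanti : ∀ Z : Set V, Antitone (fun ω : Finset (Sym2 V) => ind (R ω s Z)) :=
        fun Z a b hab => ind_mono fun hR x hx hc => hR x hx (hc.mono' hab)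
      have h1 : Ex p (FF s f X) ≤ Ex p (fun ω => f (cl ω s)) * Ex p (fun ω => ind (R ω s X)) :=
        harris_anti hp (fun ω => hf0 _) (fun ω => ind_le_one _) (hf.comp (cl_mono s)) (hanti X)
      have h2 : Ex p (FF s g Y) ≤ Ex p (fun ω => g (cl ω s)) * Ex p (fun ω => ind (R ω s Y)) :=
        harris_anti hp (fun ω => hg0 _) (fun ω => ind_le_one _) (hg.comp (cl_mono s)) (hanti Y)
      have h3 := harris hp (f := fun ω => f (cl ω s)) (g := fun ω => g (cl ω s))
        (fun ω => hf0 _) (fun ω => hg0 _) (hf.comp (cl_mono s)) (hg.comp (cl_mono s))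
      have h4 := harris_anti_anti hp (fun ω => ind_le_one (R ω s X)) (fun ω => ind_le_one (R ω s Y))
        (hanti X) (hanti Y)
      have h5 : Ex p (FF s (fun S => f S * g S) (X ∩ Y)) =
          Ex p (fun ω => f (cl ω s) * g (cl ω s)) := by
        refine Ex_congr_ae fun ω hω => ?_
        unfold FF
        have : R ω s (X ∩ Y) := by
          intro x hx hc
          refine hc.ind (fun y => y ∉ X ∩ Y) hs ?_ hx
          intro y y' hyy' _ hy'
          have := ne_zero_of_wt_ne hω hyy'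
          rw [Sym2.eq_swap] at this
          exact this (hz y' hy' y)
        rw [ind_pos this, mul_one]
      have h6 : Ex p (FF s (fun _ => 1) (X ∪ Y)) =
          Ex p (fun ω => ind (R ω s X) * ind (R ω s Y)) := by
        congr 1
        ext ω
        unfold FF
        rw [one_mul, ← ind_and]
        refine ind_congr ⟨fun h => ⟨fun x hx => h x (Or.inl hx), fun x hx => h x (Or.inr hx)⟩, ?_⟩
        rintro ⟨h1, h2⟩ x (hx | hx)
        exacts [h1 x hx, h2 x hx]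
      rw [h5, h6]
      have n1 : 0 ≤ Ex p (fun ω => f (cl ω s)) := Ex_nonneg hp fun _ => hf0 _
      have n2 : 0 ≤ Ex p (fun ω => g (cl ω s)) := Ex_nonneg hp fun _ => hg0 _
      have n3 : 0 ≤ Ex p (fun ω => ind (R ω s X)) := Ex_nonneg hp fun _ => ind_nonneg _
      have n4 : 0 ≤ Ex p (fun ω => ind (R ω s Y)) := Ex_nonneg hp fun _ => ind_nonneg _
      calc _ ≤ (Ex p (fun ω => f (cl ω s)) * Ex p (fun ω => ind (R ω s X))) *
            (Ex p (fun ω => g (cl ω s)) * Ex p (fun ω => ind (R ω s Y))) :=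
            mul_le_mul h1 h2 (Ex_nonneg hp (FF_nonneg s hg0 _)) (mul_nonneg n1 n3)
        _ = (Ex p (fun ω => f (cl ω s)) * Ex p (fun ω => g (cl ω s))) *
            (Ex p (fun ω => ind (R ω s X)) * Ex p (fun ω => ind (R ω s Y))) := by ring
        _ ≤ _ := mul_le_mul h3 h4 (mul_nonneg n3 n4) (Ex_nonneg hp fun _ => hfg0 _)

open Classical in
/-- Edges meeting `S`. -/
noncomputable def inc (S : Finset V) : Finset (Sym2 V) :=
  Finset.univ.filter (fun e => ∃ x ∈ S, x ∈ e)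

lemma mem_inc {S : Finset V} {x y : V} : s(x, y) ∈ inc S ↔ x ∈ S ∨ y ∈ S := by
  simp only [inc, Finset.mem_filter, Finset.mem_univ, true_and, Sym2.mem_iff]
  constructor
  · rintro ⟨z, hz, rfl | rfl⟩
    exacts [Or.inl hz, Or.inr hz]
  · rintro (h | h)
    exacts [⟨x, h, Or.inl rfl⟩, ⟨y, h, Or.inr rfl⟩]

lemma cl_eq_of_inter {s : V} {S : Finset V} {ω ω' : Finset (Sym2 V)}
    (h : ω ∩ inc S = ω' ∩ inc S) (hS : cl ω s = S) : cl ω' s = S := by
  have hm : ∀ x, x ∈ S ↔ Conn ω s x := fun x => by rw [← hS, mem_cl]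
  have h1 : ∀ x y, x ∈ S → (s(x, y) ∈ ω ↔ s(x, y) ∈ ω') := by
    intro x y hx
    have hi : s(x, y) ∈ inc S := mem_inc.2 (Or.inl hx)
    have := Finset.ext_iff.1 h s(x, y)
    simpa [hi] using this
  ext y
  rw [mem_cl]
  constructor
  · intro hc
    refine hc.ind (fun y => y ∈ S) ((hm s).2 (Conn.rfl' _ _)) ?_
    intro x y hxy hx
    exact (hm y).2 (((hm x).1 hx).trans' (Conn.edge ((h1 x y hx).2 hxy)))
  · intro hy
    have := ((hm y).1 hy).ind (fun y => Conn ω s y ∧ Conn ω' s y)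
      ⟨Conn.rfl' _ _, Conn.rfl' _ _⟩ (fun x y hxy hx =>
        ⟨hx.1.trans' (Conn.edge hxy), hx.2.trans' (Conn.edge ((h1 x y ((hm x).2 hx.1)).1 hxy))⟩)
    exact this.2

lemma conn_sdiff_inc {s t t' : V} {ω : Finset (Sym2 V)} (ht : ¬ Conn ω s t) :
    Conn (ω \ inc (cl ω s)) t t' ↔ Conn ω t t' := by
  refine ⟨fun h => h.mono' Finset.sdiff_subset, fun h => ?_⟩
  have := h.ind (fun y => ¬ Conn ω s y ∧ Conn (ω \ inc (cl ω s)) t y) ⟨ht, Conn.rfl' _ _⟩ (by
    intro x y hxy hx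
    have hy : ¬ Conn ω s y := fun hy => hx.1 (hy.trans' (Conn.edge hxy).symm')
    refine ⟨hy, hx.2.trans' (Conn.edge (Finset.mem_sdiff.2 ⟨hxy, ?_⟩))⟩
    rw [mem_inc, mem_cl, mem_cl]
    tauto)
  exact this.2

/-- The Markov property at the cluster of `s`. -/
lemma markov (p : Sym2 V → ℝ) (s t t' : V) (h : Finset V → ℝ) :
    Ex p (fun ω => FF s h {t, t'} ω * ind (¬ Conn ω t t')) =
      Ex p (FF s (fun S => h S * Ex p (fun ω => ind (¬ Conn (ω \ inc S) t t'))) {t, t'}) := by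
  have e1 : ∀ ω, FF s h {t, t'} ω * ind (¬ Conn ω t t') =
      ∑ S : Finset V, (h S * ind (t ∉ S ∧ t' ∉ S)) *
        (ind (cl ω s = S) * ind (¬ Conn (ω \ inc S) t t')) := by
    intro ω
    rw [Finset.sum_eq_single (cl ω s)]
    · rw [ind_pos rfl, one_mul]
      unfold FF
      by_cases hR : R ω s {t, t'}
      · have ht : ¬ Conn ω s t := hR t (by simp)
        have ht' : ¬ Conn ω s t' := hR t' (by simp)
        rw [ind_pos hR, ind_pos (P := t ∉ cl ω s ∧ t' ∉ cl ω s)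
          (by rw [mem_cl, mem_cl]; exact ⟨ht, ht'⟩), conn_sdiff_inc ht]
      · rw [ind_neg hR, ind_neg (P := t ∉ cl ω s ∧ t' ∉ cl ω s)]
        · simp
        · rw [mem_cl, mem_cl]
          rintro ⟨h1, h2⟩
          apply hR
          rintro x (rfl | rfl)
          exacts [h1, h2]
    · intro S _ hS
      rw [ind_neg (Ne.symm hS)]; simp
    · simp
  have e2 : ∀ ω, FF s (fun S => h S * Ex p (fun ω => ind (¬ Conn (ω \ inc S) t t'))) {t, t'} ω =
      ∑ S : Finset V, (h S * ind (t ∉ S ∧ t' ∉ S) *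
        Ex p (fun ω => ind (¬ Conn (ω \ inc S) t t'))) * ind (cl ω s = S) := by
    intro ω
    rw [Finset.sum_eq_single (cl ω s)]
    · rw [ind_pos rfl, mul_one]
      unfold FF
      have : R ω s {t, t'} ↔ t ∉ cl ω s ∧ t' ∉ cl ω s := by
        rw [mem_cl, mem_cl]
        refine ⟨fun hR => ⟨hR t (by simp), hR t' (by simp)⟩, ?_⟩
        rintro ⟨h1, h2⟩ x (rfl | rfl)
        exacts [h1, h2]
      rw [ind_congr this]; ring
    · intro S _ hS
      rw [ind_neg (Ne.symm hS)]; simp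
    · simp
  rw [funext e1, funext e2, Ex_sum, Ex_sum]
  refine Finset.sum_congr rfl fun S _ => ?_
  rw [Ex_const_mul, Ex_const_mul, Ex_indep p (inc S)]
  · ring
  · intro ω ω' hω
    exact ind_congr ⟨cl_eq_of_inter hω, cl_eq_of_inter hω.symm⟩
  · intro ω ω' hω
    rw [hω]

/-- Given that `s` is joined neither to `t` nor to `t'`, the events `s ↔ v` and `t ↮ t'` are
positively correlated. -/
theorem cond_corr {p : Sym2 V → ℝ} (hp : Adm p) (s v t t' : V) :
    Ex p (fun ω => ind (Conn ω s v ∧ ¬ Conn ω s t ∧ ¬ Conn ω s t')) *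
      Ex p (fun ω => ind (¬ Conn ω s t ∧ ¬ Conn ω s t' ∧ ¬ Conn ω t t')) ≤
    Ex p (fun ω => ind (Conn ω s v ∧ ¬ Conn ω s t ∧ ¬ Conn ω s t' ∧ ¬ Conn ω t t')) *
      Ex p (fun ω => ind (¬ Conn ω s t ∧ ¬ Conn ω s t')) := by
  have hR : ∀ ω : Finset (Sym2 V), R ω s {t, t'} ↔ ¬ Conn ω s t ∧ ¬ Conn ω s t' := by
    intro ω
    refine ⟨fun hR => ⟨hR t (by simp), hR t' (by simp)⟩, ?_⟩
    rintro ⟨h1, h2⟩ x (rfl | rfl)
    exacts [h1, h2]
  have key := bhk s (f := fun S => ind (v ∈ S))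
    (g := fun S => Ex p (fun ω => ind (¬ Conn (ω \ inc S) t t')))
    (fun _ => ind_nonneg _) (fun _ => Ex_nonneg hp fun _ => ind_nonneg _)
    (fun a b hab => ind_mono fun h => hab h)
    (fun a b hab => Ex_mono_ae hp fun ω _ => ind_mono fun h hc => h (hc.mono' (by
      intro e he
      rw [Finset.mem_sdiff] at he ⊢
      refine ⟨he.1, fun h' => he.2 ?_⟩
      induction e using Sym2.ind with
      | _ x y =>
        rw [mem_inc] at h' ⊢
        exact h'.imp (fun h => hab h) (fun h => hab h))))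
    _ p hp rfl {t, t'} {t, t'}
  rw [Set.inter_self, Set.union_self, ← markov p s t t' (fun S => ind (v ∈ S))] at key
  have m1 := markov p s t t' (fun _ => 1)
  simp only [one_mul] at m1
  rw [← m1] at key
  convert key using 3
  · ext ω; unfold FF; rw [← ind_and, mem_cl, hR]
  · ext ω; unfold FF; rw [one_mul, ← ind_and, hR]; exact ind_congr (by tauto)
  · ext ω; unfold FF; rw [← ind_and, ← ind_and, mem_cl, hR]; exact ind_congr (by tauto)
  · ext ω; unfold FF; rw [one_mul, hR]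

end Pool.Agent.Work.MP_07f1b5_pr
end

-- merged part: Pool.Agent.Work.MP_07f1b5_pr.Main
section
namespace Pool.Agent.Work.MP_07f1b5_pr

open Finset

/-- The potential. -/
noncomputable def pot (θ Y d : ℝ) : ℝ :=
  θ + θ * (Y * (1 - Y)) + 4 / θ ^ 3 * d + 5 / θ ^ 5 * (d * (1 - d))

lemma gap_ineq {θ DX DY Dd A α γ1 γ2 w0 d0 d : ℝ} (hθ : 0 < θ)
    (hA0 : 0 ≤ A) (hγ2 : 0 ≤ γ2) (hγ1 : 0 ≤ γ1) (hd0 : 0 ≤ d0)
    (h1 : DX ≤ A + γ2) (h2 : γ1 ≤ DY) (h2' : DY ≤ 1) (h3 : α ≤ Dd + γ2) (h4 : A * w0 ≤ α)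
    (h5 : (γ1 + γ2) * w0 ≤ γ1 * (w0 + d0)) (h6 : θ ≤ w0) (h6' : w0 ≤ 1) (h7 : d0 ≤ d + |Dd|)
    (h8 : 4 / θ ^ 3 * d ≤ 1) :
    DX * DY ≤ θ * DY ^ 2 + 5 / θ ^ 5 * Dd ^ 2 := by
  set D := |Dd| with hD
  have hD0 : 0 ≤ D := abs_nonneg _
  have hDd : Dd ≤ D := le_abs_self _
  have hDY : 0 ≤ DY := hγ1.trans h2
  have hw0 : 0 ≤ w0 := hθ.le.trans h6
  have e1 : γ2 * w0 ≤ DY * d0 := by nlinarith
  have e2 : A * w0 ≤ γ2 + D := by linarith
  have e3 : (A + γ2) * w0 ^ 2 ≤ 2 * (γ2 * w0) + D := by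
    have t1 : A * w0 * w0 ≤ (γ2 + D) * w0 := mul_le_mul_of_nonneg_right e2 hw0
    have t2 : γ2 * w0 * w0 ≤ γ2 * w0 := mul_le_of_le_one_right (mul_nonneg hγ2 hw0) h6'
    have t3 : D * w0 ≤ D := mul_le_of_le_one_right hD0 h6'
    nlinarith
  have hd : d ≤ θ ^ 3 / 4 := by
    rw [div_mul_eq_mul_div, div_le_one (by positivity)] at h8
    linarith
  have e4 : (A + γ2) * w0 ^ 2 ≤ DY * θ ^ 3 / 2 + 3 * D := by
    have t1 : DY * d0 ≤ DY * (θ ^ 3 / 4 + D) := mul_le_mul_of_nonneg_left (by linarith) hDY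
    have t2 : DY * D ≤ D := mul_le_of_le_one_left hD0 h2'
    nlinarith
  have e5 : DX * θ ^ 2 ≤ DY * θ ^ 3 / 2 + 3 * D := by
    have t1 : θ ^ 2 ≤ w0 ^ 2 := pow_le_pow_left₀ hθ.le h6 2
    have t2 : DX * θ ^ 2 ≤ (A + γ2) * θ ^ 2 := mul_le_mul_of_nonneg_right h1 (by positivity)
    have t3 : (A + γ2) * θ ^ 2 ≤ (A + γ2) * w0 ^ 2 :=
      mul_le_mul_of_nonneg_left t1 (by linarith)
    linarith
  have hsq : Dd ^ 2 = D ^ 2 := (sq_abs Dd).symm
  rw [hsq]
  have e6 : DX * DY * θ ^ 5 ≤ θ ^ 6 * DY ^ 2 + 5 * D ^ 2 := by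
    have t1 : DX * θ ^ 2 * (DY * θ ^ 3) ≤ (DY * θ ^ 3 / 2 + 3 * D) * (DY * θ ^ 3) :=
      mul_le_mul_of_nonneg_right e5 (by positivity)
    nlinarith [sq_nonneg (DY * θ ^ 3 - 3 * D), sq_nonneg D]
  have hθ5 : 0 < θ ^ 5 := by positivity
  have : θ * DY ^ 2 + 5 / θ ^ 5 * D ^ 2 = (θ ^ 6 * DY ^ 2 + 5 * D ^ 2) / θ ^ 5 := by
    field_simp
  rw [this, le_div_iff₀ hθ5]
  exact e6

lemma step_ineq {θ t x0 x1 X0 X1 Y0 Y1 d0 d1 : ℝ} (ht0 : 0 ≤ t) (ht1 : t ≤ 1)
    (h0 : x0 - X0 * Y0 ≤ pot θ Y0 d0) (h1 : x1 - X1 * Y1 ≤ pot θ Y1 d1)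
    (hg : (X1 - X0) * (Y1 - Y0) ≤ θ * (Y1 - Y0) ^ 2 + 5 / θ ^ 5 * (d1 - d0) ^ 2) :
    ((1 - t) * x0 + t * x1) - ((1 - t) * X0 + t * X1) * ((1 - t) * Y0 + t * Y1) ≤
      pot θ ((1 - t) * Y0 + t * Y1) ((1 - t) * d0 + t * d1) := by
  unfold pot at *
  set K := 4 / θ ^ 3
  set L := 5 / θ ^ 5
  have h1t : 0 ≤ 1 - t := by linarith
  have e0 := mul_le_mul_of_nonneg_left h0 h1t
  have e1 := mul_le_mul_of_nonneg_left h1 ht0
  have e2 := mul_le_mul_of_nonneg_left hg (mul_nonneg ht0 h1t)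
  nlinarith

variable {V : Type} [Fintype V] [DecidableEq V]

/-- Probability of an event. -/
noncomputable def Pr (p : Sym2 V → ℝ) (A : Finset (Sym2 V) → Prop) : ℝ :=
  Ex p (fun ω => ind (A ω))

lemma Pr_nonneg {p : Sym2 V → ℝ} (hp : Adm p) (A : Finset (Sym2 V) → Prop) : 0 ≤ Pr p A :=
  Ex_nonneg hp fun _ => ind_nonneg _

lemma Pr_le_one {p : Sym2 V → ℝ} (hp : Adm p) (A : Finset (Sym2 V) → Prop) : Pr p A ≤ 1 := by
  rw [← Ex_const p 1]
  exact Ex_mono_ae hp fun _ _ => ind_le_one _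

lemma Pr_congr_ae {p : Sym2 V → ℝ} {A B : Finset (Sym2 V) → Prop}
    (h : ∀ ω, wt p ω ≠ 0 → (A ω ↔ B ω)) : Pr p A = Pr p B :=
  Ex_congr_ae fun ω hω => ind_congr (h ω hω)

lemma Pr_affine (p : Sym2 V → ℝ) (e : Sym2 V) (A : Finset (Sym2 V) → Prop) :
    Pr p A = (1 - p e) * Pr (Function.update p e 0) A + p e * Pr (Function.update p e 1) A :=
  Ex_affine p e _

lemma Pr_one (p : Sym2 V → ℝ) (e : Sym2 V) (A : Finset (Sym2 V) → Prop) :
    Pr (Function.update p e 1) A = Pr (Function.update p e 0) (fun ω => A (insert e ω)) :=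
  Ex_update_one p e _

lemma pot_ge {θ Y d : ℝ} (hθ : 0 < θ) (hY0 : 0 ≤ Y) (hY1 : Y ≤ 1) (hd0 : 0 ≤ d) (hd1 : d ≤ 1) :
    θ + 4 / θ ^ 3 * d ≤ pot θ Y d := by
  unfold pot
  have h1 : 0 ≤ θ * (Y * (1 - Y)) := mul_nonneg hθ.le (mul_nonneg hY0 (by linarith))
  have h2 : 0 ≤ 5 / θ ^ 5 * (d * (1 - d)) :=
    mul_nonneg (by positivity) (mul_nonneg hd0 (by linarith))
  linarith

lemma cov_trivial {p : Sym2 V → ℝ} (hp : Adm p) (a b c : V) :
    Pr p (fun ω => Conn ω a b ∧ Conn ω a c) - Pr p (fun ω => Conn ω a c) *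
      Pr p (fun ω => Conn ω b c) ≤ Pr p (fun ω => ¬ Conn ω a b ∧ ¬ Conn ω a c ∧ ¬ Conn ω b c) +
        Pr p (fun ω => Conn ω a b ∧ ¬ Conn ω a c) := by
  have h : Pr p (fun ω => Conn ω a b ∧ Conn ω a c) + 1 ≤ Pr p (fun ω => Conn ω a c) +
      Pr p (fun ω => Conn ω b c) + Pr p (fun ω => ¬ Conn ω a b ∧ ¬ Conn ω a c ∧ ¬ Conn ω b c) +
        Pr p (fun ω => Conn ω a b ∧ ¬ Conn ω a c) := by
    unfold Pr
    rw [← Ex_const p 1, ← Ex_add, ← Ex_add, ← Ex_add, ← Ex_add]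
    refine Ex_mono_ae hp fun ω _ => ?_
    have t1 : Conn ω a b → Conn ω a c → Conn ω b c := fun h1 h2 => h1.symm'.trans' h2
    by_cases h1 : Conn ω a b <;> by_cases h2 : Conn ω a c <;> by_cases h3 : Conn ω b c <;>
      simp_all [ind]
  have h1 := Pr_le_one hp (fun ω => Conn ω a c)
  have h2 := Pr_le_one hp (fun ω => Conn ω b c)
  nlinarith [mul_nonneg (sub_nonneg.2 h1) (sub_nonneg.2 h2)]

lemma gap_step {θ : ℝ} (hθ : 0 < θ) {q : Sym2 V → ℝ} (hq : Adm q) (a b c u v : V)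
    (hu : ∀ ω, wt q ω ≠ 0 → Conn ω b u) {d : ℝ}
    (h6 : θ ≤ Pr q (fun ω => ¬ Conn ω a b ∧ ¬ Conn ω a c ∧ ¬ Conn ω b c))
    (h7 : Pr q (fun ω => Conn ω a b ∧ ¬ Conn ω a c) ≤ d +
      |Pr q (fun ω => Conn (insert s(u, v) ω) a b ∧ ¬ Conn (insert s(u, v) ω) a c) -
        Pr q (fun ω => Conn ω a b ∧ ¬ Conn ω a c)|)
    (h8 : 4 / θ ^ 3 * d ≤ 1) :
    (Pr q (fun ω => Conn (insert s(u, v) ω) a c) - Pr q (fun ω => Conn ω a c)) *
      (Pr q (fun ω => Conn (insert s(u, v) ω) b c) - Pr q (fun ω => Conn ω b c)) ≤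
      θ * (Pr q (fun ω => Conn (insert s(u, v) ω) b c) - Pr q (fun ω => Conn ω b c)) ^ 2 +
      5 / θ ^ 5 * (Pr q (fun ω => Conn (insert s(u, v) ω) a b ∧ ¬ Conn (insert s(u, v) ω) a c) -
        Pr q (fun ω => Conn ω a b ∧ ¬ Conn ω a c)) ^ 2 := by
  have c1 := cond_corr hq a v b c
  have c2 := cond_corr hq c v a b
  have hw : Ex q (fun ω => ind (¬ Conn ω c a ∧ ¬ Conn ω c b ∧ ¬ Conn ω a b)) =
      Pr q (fun ω => ¬ Conn ω a b ∧ ¬ Conn ω a c ∧ ¬ Conn ω b c) := by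
    refine Ex_congr_ae fun ω _ => ind_congr ⟨fun h => ⟨h.2.2, fun h' => h.1 h'.symm',
      fun h' => h.2.1 h'.symm'⟩, fun h => ⟨fun h' => h.2.1 h'.symm', fun h' => h.2.2 h'.symm', h.1⟩⟩
  rw [hw] at c2
  refine gap_ineq (A := Pr q (fun ω => Conn ω a v ∧ ¬ Conn ω a b ∧ ¬ Conn ω a c))
    (α := Pr q (fun ω => Conn ω a v ∧ ¬ Conn ω a b ∧ ¬ Conn ω a c ∧ ¬ Conn ω b c))
    (γ1 := Pr q (fun ω => Conn ω c v ∧ ¬ Conn ω c a ∧ ¬ Conn ω c b ∧ ¬ Conn ω a b))
    (γ2 := Pr q (fun ω => Conn ω c v ∧ Conn ω a b ∧ ¬ Conn ω a c))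
    hθ (Pr_nonneg hq _) (Pr_nonneg hq _) (Pr_nonneg hq _) (Pr_nonneg hq _) ?_ ?_ ?_ ?_ ?_ ?_
    h6 (Pr_le_one hq _) h7 h8
  · rw [sub_le_iff_le_add]
    unfold Pr
    rw [← Ex_add, ← Ex_add]
    refine Ex_mono_ae hq fun ω hω => ?_
    have hbu := hu ω hω
    have n1 := ind_nonneg (Conn ω a v ∧ ¬ Conn ω a b ∧ ¬ Conn ω a c)
    have n2 := ind_nonneg (Conn ω c v ∧ Conn ω a b ∧ ¬ Conn ω a c)
    have n3 := ind_nonneg (Conn ω a c)
    by_cases h : Conn (insert s(u, v) ω) a c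
    · rw [ind_pos h]
      by_cases hac : Conn ω a c
      · rw [ind_pos hac]; linarith
      · rcases (conn_insert ω u v a c).1 h with h | h | h
        · exact absurd h hac
        · rw [ind_pos (P := Conn ω c v ∧ Conn ω a b ∧ ¬ Conn ω a c)
            ⟨h.2.symm', h.1.trans' hbu.symm', hac⟩]
          linarith
        · rw [ind_pos (P := Conn ω a v ∧ ¬ Conn ω a b ∧ ¬ Conn ω a c)
            ⟨h.1, fun hab => hac ((hab.trans' hbu).trans' h.2), hac⟩]
          linarith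
    · rw [ind_neg h]; linarith
  · rw [le_sub_iff_add_le]
    unfold Pr
    rw [← Ex_add]
    refine Ex_mono_ae hq fun ω hω => ?_
    have hbu := hu ω hω
    by_cases h : Conn ω b c
    · rw [ind_pos h, ind_neg (fun h' => h'.2.2.1 h.symm'),
        ind_pos (h.mono' (Finset.subset_insert _ _))]
      linarith
    · rw [ind_neg h, add_zero]
      exact ind_mono fun h' => (conn_insert ω u v b c).2 (Or.inr (Or.inl ⟨hbu, h'.1.symm'⟩))
  · have := Pr_le_one hq (fun ω => Conn (insert s(u, v) ω) b c)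
    have := Pr_nonneg hq (fun ω => Conn ω b c)
    linarith
  · have : Pr q (fun ω => Conn ω a v ∧ ¬ Conn ω a b ∧ ¬ Conn ω a c ∧ ¬ Conn ω b c) +
        Pr q (fun ω => Conn ω a b ∧ ¬ Conn ω a c) ≤
        Pr q (fun ω => Conn (insert s(u, v) ω) a b ∧ ¬ Conn (insert s(u, v) ω) a c) +
        Pr q (fun ω => Conn ω c v ∧ Conn ω a b ∧ ¬ Conn ω a c) := by
      unfold Pr
      rw [← Ex_add, ← Ex_add]
      refine Ex_mono_ae hq fun ω hω => ?_
      have hbu := hu ω hω
      have n1 := ind_nonneg (Conn (insert s(u, v) ω) a b ∧ ¬ Conn (insert s(u, v) ω) a c)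
      have n2 := ind_nonneg (Conn ω c v ∧ Conn ω a b ∧ ¬ Conn ω a c)
      by_cases h1 : Conn ω a v ∧ ¬ Conn ω a b ∧ ¬ Conn ω a c ∧ ¬ Conn ω b c
      · rw [ind_pos h1, ind_neg (fun h' => h1.2.1 h'.1),
          ind_pos (P := Conn (insert s(u, v) ω) a b ∧ ¬ Conn (insert s(u, v) ω) a c)]
        · linarith
        · refine ⟨(conn_insert ω u v a b).2 (Or.inr (Or.inr ⟨h1.1, hbu.symm'⟩)), fun h => ?_⟩
          rcases (conn_insert ω u v a c).1 h with h | h | h
          · exact h1.2.2.1 h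
          · exact h1.2.1 (h.1.trans' hbu.symm')
          · exact h1.2.2.2 (hbu.trans' h.2)
      · rw [ind_neg h1, zero_add]
        by_cases h2 : Conn ω a b ∧ ¬ Conn ω a c
        · rw [ind_pos h2]
          by_cases h3 : Conn ω c v
          · rw [ind_pos (P := Conn ω c v ∧ Conn ω a b ∧ ¬ Conn ω a c) ⟨h3, h2⟩]
            linarith
          · rw [ind_pos (P := Conn (insert s(u, v) ω) a b ∧ ¬ Conn (insert s(u, v) ω) a c)]
            · linarith
            · refine ⟨h2.1.mono' (Finset.subset_insert _ _), fun h => ?_⟩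
              rcases (conn_insert ω u v a c).1 h with h | h | h
              · exact h2.2 h
              · exact h3 h.2.symm'
              · exact h2.2 ((h2.1.trans' hbu).trans' h.2)
        · rw [ind_neg h2]; linarith
    linarith
  · refine c1.trans ?_
    exact mul_le_of_le_one_right (Pr_nonneg hq _) (Pr_le_one hq _)
  · have t1 : Pr q (fun ω => Conn ω c v ∧ ¬ Conn ω c a ∧ ¬ Conn ω c b ∧ ¬ Conn ω a b) +
        Pr q (fun ω => Conn ω c v ∧ Conn ω a b ∧ ¬ Conn ω a c) ≤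
        Ex q (fun ω => ind (Conn ω c v ∧ ¬ Conn ω c a ∧ ¬ Conn ω c b)) := by
      unfold Pr
      rw [← Ex_add]
      refine Ex_mono_ae hq fun ω _ => ?_
      by_cases h : Conn ω a b
      · rw [ind_neg (fun h' => h'.2.2.2 h), zero_add]
        exact ind_mono fun h' => ⟨h'.1, fun h'' => h'.2.2 h''.symm',
          fun h'' => h'.2.2 (h.trans' h''.symm')⟩
      · rw [ind_neg (P := Conn ω c v ∧ Conn ω a b ∧ ¬ Conn ω a c) (fun h' => h h'.2.1), add_zero]
        exact ind_mono fun h' => ⟨h'.1, h'.2.1, h'.2.2.1⟩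
    have t2 : Ex q (fun ω => ind (¬ Conn ω c a ∧ ¬ Conn ω c b)) ≤
        Pr q (fun ω => ¬ Conn ω a b ∧ ¬ Conn ω a c ∧ ¬ Conn ω b c) +
          Pr q (fun ω => Conn ω a b ∧ ¬ Conn ω a c) := by
      unfold Pr
      rw [← Ex_add]
      refine Ex_mono_ae hq fun ω _ => ?_
      by_cases h : Conn ω a b
      · rw [ind_neg (P := ¬ Conn ω a b ∧ ¬ Conn ω a c ∧ ¬ Conn ω b c) (fun h' => h'.1 h), zero_add]
        exact ind_mono fun h' => ⟨h, fun h'' => h'.1 h''.symm'⟩
      · rw [ind_neg (P := Conn ω a b ∧ ¬ Conn ω a c) (fun h' => h h'.1), add_zero]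
        exact ind_mono fun h' => ⟨h, fun h'' => h'.1 h''.symm', fun h'' => h'.2 h''.symm'⟩
    exact (mul_le_mul_of_nonneg_right t1 (Pr_nonneg hq _)).trans
      (c2.trans (mul_le_mul_of_nonneg_left t2 (Pr_nonneg hq _)))

theorem cov_le_pot {θ : ℝ} (hθ : 0 < θ) (hθ1 : θ ≤ 1) (a b c : V) (n : ℕ) :
    ∀ p : Sym2 V → ℝ, Adm p → (Finset.univ.filter (fun e => p e ≠ 0 ∧ p e ≠ 1)).card = n →
      Pr p (fun ω => Conn ω a b ∧ Conn ω a c) - Pr p (fun ω => Conn ω a c) *
        Pr p (fun ω => Conn ω b c) ≤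
      pot θ (Pr p (fun ω => Conn ω b c)) (Pr p (fun ω => Conn ω a b ∧ ¬ Conn ω a c)) := by
  induction n using Nat.strong_induction_on with
  | _ n ih =>
  intro p hp hn
  have hpot := pot_ge hθ (Pr_nonneg hp (fun ω => Conn ω b c)) (Pr_le_one hp _)
    (Pr_nonneg hp (fun ω => Conn ω a b ∧ ¬ Conn ω a c)) (Pr_le_one hp _)
  have hd0 := Pr_nonneg hp (fun ω => Conn ω a b ∧ ¬ Conn ω a c)
  have hK : 1 ≤ 4 / θ ^ 3 := by
    rw [le_div_iff₀ (by positivity)]
    have := pow_le_one₀ hθ.le hθ1 (n := 3)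
    linarith
  by_cases hw : Pr p (fun ω => ¬ Conn ω a b ∧ ¬ Conn ω a c ∧ ¬ Conn ω b c) ≤ θ
  · have h1 := cov_trivial hp a b c
    have h2 := mul_le_mul_of_nonneg_right hK hd0
    linarith
  by_cases hd : 1 ≤ 4 / θ ^ 3 * Pr p (fun ω => Conn ω a b ∧ ¬ Conn ω a c)
  · have h1 := Pr_le_one hp (fun ω => Conn ω a b ∧ Conn ω a c)
    have h2 := mul_nonneg (Pr_nonneg hp (fun ω => Conn ω a c)) (Pr_nonneg hp (fun ω => Conn ω b c))
    linarith
  push Not at hw hd
  set ω1 : Finset (Sym2 V) := Finset.univ.filter (fun e => p e = 1) with hω1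
  by_cases hz : ∃ u v, Conn ω1 b u ∧ p s(u, v) ≠ 0 ∧ p s(u, v) ≠ 1
  · obtain ⟨u, v, hu, he0, he1⟩ := hz
    set e := s(u, v) with he
    have hcard : ∀ t : ℝ, t = 0 ∨ t = 1 → (Finset.univ.filter (fun e' =>
        Function.update p e t e' ≠ 0 ∧ Function.update p e t e' ≠ 1)).card < n := by
      intro t ht
      rw [← hn]
      apply Finset.card_lt_card
      refine ⟨fun e' he' => ?_, fun hsub => ?_⟩
      · simp only [Finset.mem_filter, Finset.mem_univ, true_and] at he' ⊢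
        by_cases h : e' = e
        · rw [h]; exact ⟨he0, he1⟩
        · rwa [Function.update_of_ne h] at he'
      · have := hsub (Finset.mem_filter.2 ⟨Finset.mem_univ e, he0, he1⟩)
        simp only [Finset.mem_filter, Finset.mem_univ, true_and, Function.update_self] at this
        tauto
    have hq0 : Adm (Function.update p e 0) := hp.update e le_rfl zero_le_one
    have hq1 : Adm (Function.update p e 1) := hp.update e zero_le_one le_rfl
    have I0 := ih _ (hcard 0 (Or.inl rfl)) _ hq0 rfl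
    have I1 := ih _ (hcard 1 (Or.inr rfl)) _ hq1 rfl
    rw [Pr_affine p e (fun ω => Conn ω a b ∧ Conn ω a c), Pr_affine p e (fun ω => Conn ω a c),
      Pr_affine p e (fun ω => Conn ω b c), Pr_affine p e (fun ω => Conn ω a b ∧ ¬ Conn ω a c)]
    refine step_ineq (hp e).1 (hp e).2 I0 I1 ?_
    rw [Pr_one, Pr_one, Pr_one]
    refine gap_step hθ hq0 a b c u v ?_ ?_ ?_ hd.le
    · intro ω hω
      refine hu.mono' fun e' he' => mem_of_wt_ne hω ?_
      have h1 : p e' = 1 := (Finset.mem_filter.1 he').2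
      have : e' ≠ e := fun h => he1 (h ▸ h1)
      rw [Function.update_of_ne this, h1]
    · refine hw.le.trans ?_
      rw [Pr_affine p e, Pr_one]
      have : Pr (Function.update p e 0) (fun ω => ¬ Conn (insert e ω) a b ∧
          ¬ Conn (insert e ω) a c ∧ ¬ Conn (insert e ω) b c) ≤
          Pr (Function.update p e 0) (fun ω => ¬ Conn ω a b ∧ ¬ Conn ω a c ∧ ¬ Conn ω b c) :=
        Ex_mono_ae hq0 fun ω _ => ind_mono fun h =>
          ⟨fun h' => h.1 (h'.mono' (Finset.subset_insert _ _)),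
           fun h' => h.2.1 (h'.mono' (Finset.subset_insert _ _)),
           fun h' => h.2.2 (h'.mono' (Finset.subset_insert _ _))⟩
      have := mul_le_mul_of_nonneg_left this (hp e).1
      linarith
    · rw [Pr_affine p e (fun ω => Conn ω a b ∧ ¬ Conn ω a c), Pr_one]
      set d0 := Pr (Function.update p e 0) (fun ω => Conn ω a b ∧ ¬ Conn ω a c)
      set d1 := Pr (Function.update p e 0)
        (fun ω => Conn (insert e ω) a b ∧ ¬ Conn (insert e ω) a c)
      have h1 : p e * (-(d1 - d0)) ≤ p e * |d1 - d0| :=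
        mul_le_mul_of_nonneg_left (neg_le_abs _) (hp e).1
      have h2 : p e * |d1 - d0| ≤ |d1 - d0| := mul_le_of_le_one_left (abs_nonneg _) (hp e).2
      linarith
  · push Not at hz
    have hsub : ∀ ω, wt p ω ≠ 0 → ω1 ⊆ ω := fun ω hω e he =>
      mem_of_wt_ne hω (Finset.mem_filter.1 he).2
    have hdet : ∀ ω, wt p ω ≠ 0 → (Conn ω b c ↔ Conn ω1 b c) := by
      intro ω hω
      refine ⟨fun h => h.ind (fun y => Conn ω1 b y) (Conn.rfl' _ _) ?_, fun h => h.mono' (hsub ω hω)⟩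
      intro x y hxy hx
      exact hx.trans' (Conn.edge (Finset.mem_filter.2
        ⟨Finset.mem_univ _, hz x y hx (ne_zero_of_wt_ne hω hxy)⟩))
    have hzero : Pr p (fun ω => Conn ω a b ∧ Conn ω a c) - Pr p (fun ω => Conn ω a c) *
        Pr p (fun ω => Conn ω b c) = 0 := by
      by_cases hbc : Conn ω1 b c
      · have h1 : Pr p (fun ω => Conn ω b c) = 1 := by
          rw [← Ex_const p 1]
          exact Ex_congr_ae fun ω hω => ind_pos ((hdet ω hω).2 hbc)
        have h2 : Pr p (fun ω => Conn ω a b ∧ Conn ω a c) = Pr p (fun ω => Conn ω a c) :=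
          Pr_congr_ae fun ω hω => ⟨fun h => h.2,
            fun h => ⟨h.trans' ((hdet ω hω).2 hbc).symm', h⟩⟩
        rw [h1, h2]; ring
      · have h1 : Pr p (fun ω => Conn ω b c) = 0 := by
          rw [← Ex_const p 0]
          exact Ex_congr_ae fun ω hω => ind_neg fun h => hbc ((hdet ω hω).1 h)
        have h2 : Pr p (fun ω => Conn ω a b ∧ Conn ω a c) = 0 := by
          rw [← Ex_const p 0]
          exact Ex_congr_ae fun ω hω => ind_neg fun h =>
            hbc ((hdet ω hω).1 (h.1.symm'.trans' h.2))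
        rw [h1, h2]; ring
    have := mul_nonneg (zero_le_one.trans hK) hd0
    linarith

open Classical in
lemma percProb_eq (G : SimpleGraph V) [DecidableRel G.Adj] (p : Sym2 V → ℝ)
    (A : Finset (Sym2 V) → Prop) :
    percProb G p A = Pr (fun e => if e ∈ G.edgeFinset then p e else 0) A := by
  unfold percProb Pr Ex
  rw [Finset.sum_filter]
  symm
  rw [← Finset.sum_subset (Finset.subset_univ G.edgeFinset.powerset)]
  · refine Finset.sum_congr rfl fun ω hω => ?_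
    have hω' := Finset.mem_powerset.1 hω
    have hwt : wt (fun e => if e ∈ G.edgeFinset then p e else 0) ω =
        (∏ e ∈ ω, p e) * ∏ e ∈ G.edgeFinset \ ω, (1 - p e) := by
      unfold wt
      rw [Finset.prod_ite]
      congr 1
      · rw [Finset.filter_univ_mem]
        exact Finset.prod_congr rfl fun e he => by rw [if_pos (hω' he)]
      · symm
        refine Finset.prod_subset_one_on_sdiff ?_ ?_ ?_
        · intro e he
          simp only [Finset.mem_sdiff, Finset.mem_filter, Finset.mem_univ, true_and] at he ⊢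
          exact he.2
        · intro e he
          simp only [Finset.mem_sdiff, Finset.mem_filter, Finset.mem_univ, true_and] at he
          beta_reduce
          rw [if_neg (fun h => he.2 ⟨h, he.1⟩), sub_zero]
        · intro e he
          beta_reduce
          rw [if_pos (Finset.mem_sdiff.1 he).1]
    rw [hwt]
    beta_reduce
    by_cases hA : A ω
    · rw [ind_pos hA, if_pos hA, mul_one]
    · rw [ind_neg hA, if_neg hA, mul_zero]
  · intro ω _ hω
    rw [Finset.mem_powerset, Finset.not_subset] at hω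
    obtain ⟨e, he, he'⟩ := hω
    have : wt (fun e => if e ∈ G.edgeFinset then p e else 0) ω = 0 := by
      by_contra h
      exact ne_zero_of_wt_ne h he (if_neg he')
    rw [this, zero_mul]

theorem main (ε : ℝ) (hε : 0 < ε) : ∃ δ : ℝ, 0 < δ ∧
    ∀ (V : Type) [Fintype V] [DecidableEq V] (G : SimpleGraph V) [DecidableRel G.Adj]
      (p : Sym2 V → ℝ), (∀ e ∈ G.edgeFinset, 0 ≤ p e ∧ p e ≤ 1) → ∀ a b c : V,
      percProb G p (fun ω => Conn ω a b ∧ ¬ Conn ω a c) < δ →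
      percProb G p (fun ω => Conn ω a b ∧ Conn ω a c) -
        percProb G p (fun ω => Conn ω a c) * percProb G p (fun ω => Conn ω b c) < ε := by
  set θ := min (ε / 4) 1 with hθdef
  have hθ : 0 < θ := lt_min (by linarith) one_pos
  have hθ1 : θ ≤ 1 := min_le_right _ _
  have hθε : θ ≤ ε / 4 := min_le_left _ _
  refine ⟨θ / (4 / θ ^ 3 + 5 / θ ^ 5), by positivity, ?_⟩
  intro V _ _ G _ p hp a b c hd
  rw [percProb_eq] at hd
  rw [percProb_eq, percProb_eq, percProb_eq]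
  set q : Sym2 V → ℝ := fun e => if e ∈ G.edgeFinset then p e else 0 with hq
  have hqa : Adm q := by
    intro e
    by_cases he : e ∈ G.edgeFinset
    · simp only [hq, if_pos he]; exact hp e he
    · simp only [hq, if_neg he]; norm_num
  refine (cov_le_pot hθ hθ1 a b c _ q hqa rfl).trans_lt ?_
  unfold pot
  set Y := Pr q (fun ω => Conn ω b c)
  set d := Pr q (fun ω => Conn ω a b ∧ ¬ Conn ω a c)
  have hd0 : 0 ≤ d := Pr_nonneg hqa _
  rw [lt_div_iff₀ (by positivity)] at hd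
  have h1 : θ * (Y * (1 - Y)) ≤ θ * 1 :=
    mul_le_mul_of_nonneg_left (by nlinarith [sq_nonneg (Y - 1 / 2)]) hθ.le
  have h2 : 5 / θ ^ 5 * (d * (1 - d)) ≤ 5 / θ ^ 5 * d :=
    mul_le_mul_of_nonneg_left (by nlinarith [sq_nonneg d]) (by positivity)
  nlinarith

end Pool.Agent.Work.MP_07f1b5_pr
end
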